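import Pool.Agent.J4H45.GT.Stm

set_option autoImplicit false

/-! Piece RECT of project GT (statement of helper45). -/

namespace Pool.Agent.J4H52.GT

open Pool.Agent.W959 Pool.Agent.TH457.EntD Pool.Agent.J4H45.GT

/-- the corruption bound on a product set -/
theorem rectAux {m n : ℕ} {κ : Type} {Γ : κ → Type} [∀ σ, AddCommGroup (Γ σ)]
    [∀ σ, Fintype (Γ σ)] (ℓ : κ → ℕ) (f g : ∀ σ, (Fin n → Bool) → Γ σ) (α β : ℝ) (hm : 10 ≤ m)
    (hcard : ∀ σ, Fintype.card (Γ σ) ≤ 2 ^ ℓ σ) (hα : 0 ≤ α) (hβ : 0 ≤ β)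
    (hP : ∀ P : ℝ, 0 ≤ P → P ^ (1 / (1 + 1 / (m : ℝ))) ≤ α * P + β) (T : GTree Γ) :
    ∀ (h : ℕ) (F G : (Fin n → Bool) → Prop), T.Within ℓ h →
    ex2 (1 / (m : ℝ)) n (fun X Y => ind (F X) * ind (G Y) *
      (ind (T.out (fun σ => f σ X + g σ Y) = false) * ind (conj X Y = zero n))) ≤
    (1 - 1 / (22 * (m : ℝ) ^ 2)) ^ n *
      (α * ex2 (1 / (m : ℝ)) n (fun X Y => ind (F X) * ind (G Y) *
        ind (T.out (fun σ => f σ X + g σ Y) = false)) + β * 2 ^ (2 * h)) := by
  classical
  have hm' : (10 : ℝ) ≤ m := by exact_mod_cast hm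
  have hm0 : (0 : ℝ) < m := by linarith
  have hinv : 1 / (m : ℝ) ≤ 1 / 10 := by
    apply one_div_le_one_div_of_le <;> linarith
  have hinv0 : 0 < 1 / (m : ℝ) := by positivity
  have hr1 : 0 ≤ 1 - 1 / (m : ℝ) := by linarith
  have hp0 : 0 < 1 + 1 / (m : ℝ) := by linarith
  have hg0 : 0 ≤ 1 - 1 / (22 * (m : ℝ) ^ 2) := by
    have : 1 / (22 * (m : ℝ) ^ 2) ≤ 1 := by
      rw [div_le_one (by positivity)]
      nlinarith
    linarith
  have hγn : 0 ≤ (1 - 1 / (22 * (m : ℝ) ^ 2)) ^ n := pow_nonneg hg0 n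
  induction T with
  | answer o =>
    intro h F G _
    cases o with
    | true =>
      have h1 : ex2 (1 / (m : ℝ)) n (fun X Y => ind (F X) * ind (G Y) *
          (ind ((GTree.answer true : GTree Γ).out (fun σ => f σ X + g σ Y) = false) *
            ind (conj X Y = zero n))) = 0 := by
        have : (fun X Y : Fin n → Bool => ind (F X) * ind (G Y) *
          (ind ((GTree.answer true : GTree Γ).out (fun σ => f σ X + g σ Y) = false) *
            ind (conj X Y = zero n))) = fun _ _ => 0 := by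
          funext X Y
          rw [ind_false (P := (GTree.answer true : GTree Γ).out (fun σ => f σ X + g σ Y) = false)
            (by simp [GTree.out]), zero_mul, mul_zero]
        rw [this, ex2_const]
      rw [h1]
      refine mul_nonneg hγn (add_nonneg (mul_nonneg hα (ex2_nonneg hinv0.le hr1 n fun X Y => ?_))
        (by positivity))
      exact mul_nonneg (mul_nonneg (ind_nonneg _) (ind_nonneg _)) (ind_nonneg _)
    | false =>
      have hnrm : ∀ Z : (Fin n → Bool) → Prop, nrm m n (fun x => ind (Z x)) =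
          (ex (1 / (m : ℝ)) n fun x => ind (Z x)) ^ (1 / (1 + 1 / (m : ℝ))) := by
        intro Z
        unfold nrm
        congr 2
        funext x
        simp only
        by_cases h : Z x
        · rw [ind_true h, Real.one_rpow]
        · rw [ind_false h, Real.zero_rpow hp0.ne']
      have h1 := tensor hm n (f := fun x => ind (F x)) (g := fun y => ind (G y))
        (fun x => ind_nonneg _) (fun x => ind_nonneg _) (zero n)
      have h2 : nz (zero n) = n := by simp [nz, zero]
      rw [h2, hnrm, hnrm] at h1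
      have hF := ex_nonneg hinv0.le hr1 n fun x : Fin n → Bool => ind_nonneg (F x)
      have hG := ex_nonneg hinv0.le hr1 n fun x : Fin n → Bool => ind_nonneg (G x)
      rw [← Real.mul_rpow hF hG] at h1
      have h3 := hP _ (mul_nonneg hF hG)
      have h4 : (fun X Y : Fin n → Bool => ind (F X) * ind (G Y) *
          (ind ((GTree.answer false : GTree Γ).out (fun σ => f σ X + g σ Y) = false) *
            ind (conj X Y = zero n))) =
          fun X Y => ind (F X) * ind (G Y) * ind (conj X Y = zero n) := by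
        funext X Y
        rw [ind_true (P := (GTree.answer false : GTree Γ).out (fun σ => f σ X + g σ Y) = false)
          (by simp [GTree.out]), one_mul]
      have h5 : (fun X Y : Fin n → Bool => ind (F X) * ind (G Y) *
          ind ((GTree.answer false : GTree Γ).out (fun σ => f σ X + g σ Y) = false)) =
          fun X Y => ind (F X) * ind (G Y) := by
        funext X Y
        rw [ind_true (P := (GTree.answer false : GTree Γ).out (fun σ => f σ X + g σ Y) = false)
          (by simp [GTree.out]), mul_one]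
      rw [h4, h5, ex2_prod n (fun X => ind (F X)) (fun Y => ind (G Y))]
      refine h1.trans (mul_le_mul_of_nonneg_left (h3.trans ?_) hγn)
      have h6 : β * 1 ≤ β * 2 ^ (2 * h) :=
        mul_le_mul_of_nonneg_left (one_le_pow₀ (by norm_num)) hβ
      linarith
  | probe τ next ih =>
    intro h F G hT
    obtain ⟨hh, hnext⟩ := hT
    have hout : ∀ X Y : Fin n → Bool, (GTree.probe τ next).out (fun σ => f σ X + g σ Y) =
        (next (f τ X + g τ Y)).out (fun σ => f σ X + g σ Y) := fun X Y => rfl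
    -- split
    have hs : ∀ (X Y : Fin n → Bool) (W : Γ τ → ℝ),
        ind (F X) * ind (G Y) * W (f τ X + g τ Y) =
        ∑ p : Γ τ × Γ τ, ind (F X ∧ f τ X = p.1) * ind (G Y ∧ g τ Y = p.2) * W (p.1 + p.2) := by
      intro X Y W
      rw [Finset.sum_eq_single (f τ X, g τ Y)]
      · simp
      · rintro ⟨a, b⟩ _ hab
        by_cases h1 : f τ X = a
        · have h2 : ¬ (g τ Y = b) := fun h2 => hab (by rw [h1, h2])
          rw [ind_false (P := G Y ∧ g τ Y = b) (fun h3 => h2 h3.2), mul_zero, zero_mul]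
        · rw [ind_false (P := F X ∧ f τ X = a) (fun h3 => h1 h3.2), zero_mul, zero_mul]
      · intro h'
        exact absurd (Finset.mem_univ _) h'
    have e1 : (fun X Y : Fin n → Bool => ind (F X) * ind (G Y) *
        (ind ((GTree.probe τ next).out (fun σ => f σ X + g σ Y) = false) *
          ind (conj X Y = zero n))) = fun X Y => ∑ p : Γ τ × Γ τ,
        ind (F X ∧ f τ X = p.1) * ind (G Y ∧ g τ Y = p.2) *
          (ind ((next (p.1 + p.2)).out (fun σ => f σ X + g σ Y) = false) *
            ind (conj X Y = zero n)) := by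
      funext X Y
      rw [hout]
      exact hs X Y (fun v => ind ((next v).out (fun σ => f σ X + g σ Y) = false) *
        ind (conj X Y = zero n))
    have e2 : (fun X Y : Fin n → Bool => ind (F X) * ind (G Y) *
        ind ((GTree.probe τ next).out (fun σ => f σ X + g σ Y) = false)) =
        fun X Y => ∑ p : Γ τ × Γ τ,
        ind (F X ∧ f τ X = p.1) * ind (G Y ∧ g τ Y = p.2) *
          ind ((next (p.1 + p.2)).out (fun σ => f σ X + g σ Y) = false) := by
      funext X Y
      rw [hout]
      exact hs X Y (fun v => ind ((next v).out (fun σ => f σ X + g σ Y) = false))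
    rw [e1, e2, ex2_sum Finset.univ n (fun (p : Γ τ × Γ τ) (X Y : Fin n → Bool) =>
        ind (F X ∧ f τ X = p.1) * ind (G Y ∧ g τ Y = p.2) *
          (ind ((next (p.1 + p.2)).out (fun σ => f σ X + g σ Y) = false) *
            ind (conj X Y = zero n))),
      ex2_sum Finset.univ n (fun (p : Γ τ × Γ τ) (X Y : Fin n → Bool) =>
        ind (F X ∧ f τ X = p.1) * ind (G Y ∧ g τ Y = p.2) *
          ind ((next (p.1 + p.2)).out (fun σ => f σ X + g σ Y) = false))]
    refine (Finset.sum_le_sum fun p _ => ih (p.1 + p.2) (h - ℓ τ) (fun X => F X ∧ f τ X = p.1)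
      (fun Y => G Y ∧ g τ Y = p.2) (hnext _)).trans ?_
    rw [← Finset.mul_sum, Finset.sum_add_distrib, ← Finset.mul_sum]
    refine mul_le_mul_of_nonneg_left (add_le_add le_rfl ?_) hγn
    rw [Finset.sum_const, Finset.card_univ, Fintype.card_prod, nsmul_eq_mul]
    have h1 : ((Fintype.card (Γ τ) : ℕ) : ℝ) ≤ 2 ^ ℓ τ := by exact_mod_cast hcard τ
    have h2 : (0 : ℝ) ≤ (Fintype.card (Γ τ) : ℝ) := by positivity
    have h3 : ((Fintype.card (Γ τ) * Fintype.card (Γ τ) : ℕ) : ℝ) ≤ 2 ^ (2 * ℓ τ) := by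
      push_cast
      calc (Fintype.card (Γ τ) : ℝ) * Fintype.card (Γ τ) ≤ 2 ^ ℓ τ * 2 ^ ℓ τ :=
            mul_le_mul h1 h1 h2 (by positivity)
        _ = 2 ^ (2 * ℓ τ) := by rw [← pow_add, two_mul]
    have h4 : 2 * h = 2 * ℓ τ + 2 * (h - ℓ τ) := by omega
    calc ((Fintype.card (Γ τ) * Fintype.card (Γ τ) : ℕ) : ℝ) * (β * 2 ^ (2 * (h - ℓ τ)))
        ≤ 2 ^ (2 * ℓ τ) * (β * 2 ^ (2 * (h - ℓ τ))) :=
          mul_le_mul_of_nonneg_right h3 (by positivity)
      _ = β * 2 ^ (2 * h) := by rw [h4, pow_add]; ring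

theorem t_RECT : S_RECT := by
  intro m n κ Γ _ _ ℓ h T f g α β hm hcard hT hα hβ hP
  have h1 := rectAux ℓ f g α β hm hcard hα hβ hP T h (fun _ => True) (fun _ => True) hT
  simpa only [ind_true trivial, one_mul] using h1

end Pool.Agent.J4H52.GT
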