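import Pool.Agent.J4H45.GT.Stm0

set_option autoImplicit false

/-! Piece TREE of project GT (statement of helper45). -/

namespace Pool.Agent.J4H52.GT

open Finset Pool.Agent.J4H45.GT

/-- the restriction of the weights to one content of a cell -/
theorem restr {κ : Type} [Fintype κ] (Γ : κ → Type) [∀ σ, AddCommGroup (Γ σ)]
    [∀ σ, Fintype (Γ σ)] [∀ σ, DecidableEq (Γ σ)] (Ω : Type) [Fintype Ω] (w : Ω → ℂ)
    (z : Ω → ∀ σ, Γ σ) (ε : ℝ)
    (hw : ∀ θ : ∀ σ, AddChar (Γ σ) ℂ, ‖∑ ω, w ω * ∏ σ, θ σ (z ω σ)‖ ≤ ε) (τ : κ) (v : Γ τ) :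
    ∀ θ : ∀ σ, AddChar (Γ σ) ℂ,
      ‖∑ ω, (w ω * if z ω τ = v then 1 else 0) * ∏ σ, θ σ (z ω σ)‖ ≤ ε := by
  classical
  intro θ
  have hN : (0 : ℝ) < Fintype.card (Γ τ) := by exact_mod_cast Fintype.card_pos
  have hNC : ((Fintype.card (Γ τ) : ℕ) : ℂ) ≠ 0 := by exact_mod_cast hN.ne'
  have h1 : ∀ ω, (if z ω τ = v then (1 : ℂ) else 0) =
      (∑ χ : AddChar (Γ τ) ℂ, χ (z ω τ - v)) / (Fintype.card (Γ τ) : ℂ) := by
    intro ω
    rw [AddChar.sum_apply_eq_ite]
    by_cases h : z ω τ = v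
    · rw [if_pos h, if_pos (sub_eq_zero.2 h), div_self hNC]
    · rw [if_neg h, if_neg (fun h' => h (sub_eq_zero.1 h')), zero_div]
  have h2 : ∀ χ : AddChar (Γ τ) ℂ, ‖∑ ω, w ω * χ (z ω τ - v) * ∏ σ, θ σ (z ω σ)‖ ≤ ε := by
    intro χ
    have h3 := hw (Function.update θ τ (χ * θ τ))
    have h4 : ∀ ω, w ω * χ (z ω τ - v) * ∏ σ, θ σ (z ω σ) =
        χ (-v) * (w ω * ∏ σ, (Function.update θ τ (χ * θ τ)) σ (z ω σ)) := by
      intro ω
      have h5 : ∏ σ, (Function.update θ τ (χ * θ τ)) σ (z ω σ) = χ (z ω τ) * ∏ σ, θ σ (z ω σ) := by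
        rw [← Finset.mul_prod_erase Finset.univ _ (Finset.mem_univ τ),
          ← Finset.mul_prod_erase Finset.univ (fun σ => θ σ (z ω σ)) (Finset.mem_univ τ)]
        rw [Function.update_self, AddChar.mul_apply]
        have h6 : ∏ σ ∈ Finset.univ.erase τ, (Function.update θ τ (χ * θ τ)) σ (z ω σ) =
            ∏ σ ∈ Finset.univ.erase τ, θ σ (z ω σ) := by
          refine Finset.prod_congr rfl fun σ hσ => ?_
          rw [Function.update_of_ne (Finset.ne_of_mem_erase hσ)]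
        rw [h6]
        ring
      rw [h5, sub_eq_add_neg, AddChar.map_add_eq_mul]
      ring
    rw [Finset.sum_congr rfl fun ω _ => h4 ω, ← Finset.mul_sum, norm_mul, AddChar.norm_apply, one_mul]
    exact h3
  have h5 : ∑ ω, (w ω * if z ω τ = v then 1 else 0) * ∏ σ, θ σ (z ω σ) =
      (∑ χ : AddChar (Γ τ) ℂ, ∑ ω, w ω * χ (z ω τ - v) * ∏ σ, θ σ (z ω σ)) /
        (Fintype.card (Γ τ) : ℂ) := by
    rw [Finset.sum_comm, Finset.sum_div]
    refine Finset.sum_congr rfl fun ω _ => ?_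
    rw [h1 ω, ← Finset.sum_mul, ← Finset.mul_sum]
    ring
  rw [h5, norm_div, Complex.norm_natCast, div_le_iff₀ hN]
  refine (norm_sum_le _ _).trans ((Finset.sum_le_sum fun χ _ => h2 χ).trans ?_)
  rw [Finset.sum_const, Finset.card_univ, AddChar.card_eq, nsmul_eq_mul, mul_comm]

theorem t_TREE : S_TREE := by
  classical
  intro κ _ Γ _ _ ℓ Ω _ w z ε h T o hℓ hT hw
  have hε : 0 ≤ ε := (norm_nonneg _).trans (hw (fun _ => 1))
  induction T generalizing w h with
  | answer o' =>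
    have h1 : ‖∑ ω, w ω‖ ≤ ε := by
      have := hw (fun _ => 1)
      simpa using this
    have h2 : ε ≤ 2 ^ h * ε := le_mul_of_one_le_left hε (one_le_pow₀ (by norm_num))
    by_cases ho : o' = o
    · simp only [GTree.out, ho, if_true, mul_one]
      exact h1.trans h2
    · simp only [GTree.out, ho, if_false, mul_zero, Finset.sum_const_zero, norm_zero]
      exact hε.trans h2
  | probe τ next ih =>
    obtain ⟨hh, hnext⟩ := hT
    have h1 : ∑ ω, w ω * (if (GTree.probe τ next).out (z ω) = o then 1 else 0) =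
        ∑ v : Γ τ, ∑ ω, (w ω * if z ω τ = v then 1 else 0) *
          (if (next v).out (z ω) = o then 1 else 0) := by
      rw [Finset.sum_comm]
      refine Finset.sum_congr rfl fun ω _ => ?_
      rw [Finset.sum_eq_single (z ω τ)]
      · rw [if_pos rfl, mul_one]
        rfl
      · intro v _ hv
        rw [if_neg (Ne.symm hv), mul_zero, zero_mul]
      · intro h
        exact absurd (Finset.mem_univ _) h
    rw [h1]
    have h2 : ∀ v : Γ τ, ‖∑ ω, (w ω * if z ω τ = v then 1 else 0) *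
        (if (next v).out (z ω) = o then 1 else 0)‖ ≤ 2 ^ (h - ℓ τ) * ε := fun v =>
      ih v (fun ω => w ω * if z ω τ = v then 1 else 0) (h - ℓ τ) (hnext v)
        (restr Γ Ω w z ε hw τ v)
    refine (norm_sum_le _ _).trans ((Finset.sum_le_sum fun v _ => h2 v).trans ?_)
    rw [Finset.sum_const, Finset.card_univ, nsmul_eq_mul]
    have h3 : (Fintype.card (Γ τ) : ℝ) ≤ 2 ^ ℓ τ := by exact_mod_cast hℓ τ
    calc (Fintype.card (Γ τ) : ℝ) * (2 ^ (h - ℓ τ) * ε) ≤ 2 ^ ℓ τ * (2 ^ (h - ℓ τ) * ε) :=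
          mul_le_mul_of_nonneg_right h3 (by positivity)
      _ = 2 ^ h * ε := by
          rw [← mul_assoc, ← pow_add, Nat.add_sub_cancel' hh]

end Pool.Agent.J4H52.GT
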